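import Pool.Agent.helper25.EN.Spec

set_option autoImplicit false

namespace EN

open Finset Real

theorem RA_adp {m : ℕ} (S : ℕ → Om m → Finset (Fin m)) (hS : Rounds S) (i : ℕ) (x y : Om m)
    (h : ∀ u ∈ S i x, y u = x u) : S i y = S i x := by
  cases i with
  | zero => rw [hS.1, hS.1]
  | succ i => exact (hS.2 i x).2 y (fun u hu => h u ((hS.2 i x).1 hu))

theorem RA_swap {m : ℕ} (Q : Om m → ℝ) (S S' : Om m → Finset (Fin m)) (g : Fin m → Om m → ℝ) :
    ∑ x, Q x * ∑ v ∈ S' x \ S x, g v x =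
      ∑ v : Fin m, ∑ x ∈ (univ : Finset (Om m)).filter (fun x => v ∈ S' x \ S x), Q x * g v x := by
  have h1 : ∀ x : Om m, Q x * ∑ v ∈ S' x \ S x, g v x = ∑ v ∈ S' x \ S x, Q x * g v x := fun x => Finset.mul_sum _ _ _
  rw [Finset.sum_congr rfl (fun x _ => h1 x)]
  apply Finset.sum_comm'
  intro x v
  constructor
  · rintro ⟨_, h⟩
    exact ⟨Finset.mem_filter.2 ⟨Finset.mem_univ _, h⟩, Finset.mem_univ _⟩
  · rintro ⟨h, _⟩
    exact ⟨Finset.mem_univ _, (Finset.mem_filter.1 h).2⟩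

theorem RA (acp : ACP_stmt) (tls : TLS_stmt) (lg : LOG_stmt) : RA_stmt := by
  intro m Q hQ S hS i
  have hpt : ∀ x : Om m, Q x * log (2 ^ #(S (i + 1) x) * w Q (S (i + 1) x) x) =
      Q x * log (2 ^ #(S i x) * w Q (S i x) x) +
        Q x * ∑ v ∈ S (i + 1) x \ S i x, (log 2 + log (a Q (S i x ∪ (S (i + 1) x ∩ pa v)) v x)) := by
    intro x
    rcases (hQ.1 x).eq_or_lt with h0 | hpos
    · rw [← h0]
      ring
    · have hsub : S i x ⊆ S (i + 1) x := (hS.2 i x).1
      have hw : ∀ C : Finset (Fin m), 0 < w Q C x := by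
        intro C
        by_cases hne : Nonempty (Fin m)
        · obtain ⟨v⟩ := hne
          exact lt_of_lt_of_le hpos (acp m Q hQ C v x).2.1
        · have hCe : C = ∅ := by
            apply Finset.eq_empty_of_forall_notMem
            intro v _
            exact hne ⟨v⟩
          unfold w
          apply lt_of_lt_of_le hpos
          apply Finset.single_le_sum (f := fun y => Q y) (fun y _ => hQ.1 y)
          rw [Finset.mem_filter]
          exact ⟨Finset.mem_univ _, fun _ _ => rfl⟩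
      have hl : ∀ C : Finset (Fin m), log (2 ^ #C * w Q C x) = #C * log 2 + log (w Q C x) := by
        intro C
        rw [Real.log_mul (by positivity) (hw C).ne', Real.log_pow]
      rw [hl, hl, tls m Q hQ x hpos (S i x) (S (i + 1) x) hsub, Finset.sum_add_distrib, Finset.sum_const,
        nsmul_eq_mul]
      have hc : (#(S (i + 1) x) : ℝ) = #(S (i + 1) x \ S i x) + #(S i x) := by
        exact_mod_cast (Finset.card_sdiff_add_card_eq_card hsub).symm
      rw [hc]
      ring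
  have hsum : KT Q (S (i + 1)) = KT Q (S i) +
      ∑ v : Fin m, ∑ x ∈ (univ : Finset (Om m)).filter (fun x => v ∈ S (i + 1) x \ S i x),
        Q x * (log 2 + log (a Q (S i x ∪ (S (i + 1) x ∩ pa v)) v x)) := by
    unfold KT
    rw [Finset.sum_congr rfl (fun x _ => hpt x), Finset.sum_add_distrib]
    congr 1
    exact RA_swap Q (S i) (S (i + 1)) (fun v x => log 2 + log (a Q (S i x ∪ (S (i + 1) x ∩ pa v)) v x))
  have hG : G Q S i = ∑ v : Fin m, ∑ x ∈ (univ : Finset (Om m)).filter (fun x => v ∈ S (i + 1) x \ S i x),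
      Q x * phi (a Q (S i x ∪ pa v) v x) := by
    unfold G
    exact RA_swap Q (S i) (S (i + 1)) (fun v x => phi (a Q (S i x ∪ pa v) v x))
  rw [hsum, hG]
  apply add_le_add le_rfl
  apply Finset.sum_le_sum
  intro v _
  set Gd := (univ : Finset (Om m)).filter (fun x => v ∈ S (i + 1) x \ S i x) with hGd
  have hmem : ∀ x, x ∈ Gd ↔ v ∈ S (i + 1) x \ S i x := by
    intro x
    rw [hGd, Finset.mem_filter]
    exact ⟨fun h => h.2, fun h => ⟨Finset.mem_univ _, h⟩⟩
  have hvC : ∀ x ∈ Gd, v ∉ S i x ∪ pa v := by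
    intro x hx hv
    have h1 := Finset.mem_sdiff.1 ((hmem x).1 hx)
    rcases Finset.mem_union.1 hv with h2 | h2
    · exact h1.2 h2
    · unfold pa at h2
      exact lt_irrefl _ (Finset.mem_filter.1 h2).2
  obtain ⟨l1, _, l3⟩ := lg m Q hQ v (fun x => S i x ∪ (S (i + 1) x ∩ pa v)) (fun x => S i x ∪ pa v) Gd (by
    intro x hx
    refine ⟨hvC x hx, ?_, ?_, ?_⟩
    · exact Finset.union_subset_union (Finset.Subset.refl _) Finset.inter_subset_right
    · intro y hy
      have hy1 : ∀ u ∈ S i x, y u = x u := fun u hu => hy u (Finset.mem_union_left _ hu)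
      show S i y ∪ (S (i + 1) y ∩ pa v) = S i x ∪ (S (i + 1) x ∩ pa v)
      rw [RA_adp S hS i x y hy1, (hS.2 i x).2 y hy1]
    · intro y hy
      have hy1 : ∀ u ∈ S i x, y u = x u := fun u hu => hy u (Finset.mem_union_left _ hu)
      have e1 := RA_adp S hS i x y hy1
      have e2 := (hS.2 i x).2 y hy1
      refine ⟨?_, ?_⟩
      · show S i y ∪ pa v = S i x ∪ pa v
        rw [e1]
      · rw [hmem, e1, e2]
        exact (hmem x).1 hx)
  have k1 : ∑ x ∈ Gd, Q x * (log 2 + log (a Q (S i x ∪ (S (i + 1) x ∩ pa v)) v x)) =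
      ∑ x ∈ Gd, Q x * log 2 + ∑ x ∈ Gd, Q x * log (a Q (S i x ∪ (S (i + 1) x ∩ pa v)) v x) := by
    rw [← Finset.sum_add_distrib]
    exact Finset.sum_congr rfl (fun x _ => by ring)
  have k2 : ∑ x ∈ Gd, Q x * log (2 * a Q (S i x ∪ pa v) v x) =
      ∑ x ∈ Gd, Q x * log 2 + ∑ x ∈ Gd, Q x * log (a Q (S i x ∪ pa v) v x) := by
    rw [← Finset.sum_add_distrib]
    apply Finset.sum_congr rfl
    intro x hx
    rcases (hQ.1 x).eq_or_lt with h0 | hpos
    · rw [← h0]
      ring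
    · have ha := ((acp m Q hQ (S i x ∪ pa v) v x).2.2.2.2.2.2 (hvC x hx)).2.2.2 hpos
      rw [Real.log_mul (by norm_num) ha.1.ne']
      ring
  rw [k1]
  have l1' : ∑ x ∈ Gd, Q x * log (2 * a Q (S i x ∪ pa v) v x) = ∑ x ∈ Gd, Q x * phi (a Q (S i x ∪ pa v) v x) := l1
  have l3' : ∑ x ∈ Gd, Q x * log (a Q (S i x ∪ (S (i + 1) x ∩ pa v)) v x) ≤ ∑ x ∈ Gd, Q x * log (a Q (S i x ∪ pa v) v x) := l3
  rw [← l1', k2]
  exact add_le_add le_rfl l3'

end EN
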